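import Pool.Agent.Helper40.Ct.Goals

/-!
Packet EVAL0 of MP_034a88_co.
-/

set_option autoImplicit false

open Finset

namespace Pool.Agent.Helper86.Ct

open Pool.Agent.Helper40.Ct

theorem fpi_eq_zero {d r : ℕ} {α : Type} (u : α → El d r → (Fin d → ℝ)) (g : α → (Fin d → ℝ))
    (X : List α) (hu : ∀ x ∈ X, ∀ e, u x e = g x)
    (h0 : (0 : Fin d → ℝ) ∉ convexHull ℝ (g '' {x | x ∈ X})) (π : Fac d r)
    (l : List (α × El d r)) (hl : ∀ q ∈ l, q.1 ∈ X) : fpi u π l = 0 := by
  unfold fpi dgL
  split_ifs with h
  · unfold dg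
    rw [if_neg]
    rintro ⟨c, hc, hsum⟩
    apply h0
    have hlen : l.length = (d + 1) * (r + 1) := by
      rw [← h, List.length_map]
    set q : Fin ((d + 1) * (r + 1)) → α × El d r := fun s => l.get (Fin.cast hlen.symm s) with hq
    have hqX : ∀ s, (q s).1 ∈ X := fun s => hl _ (List.get_mem _ _)
    have hsum' : ∑ s, c s • enc π (g (q s).1) (q s).2 = bvec d r := by
      rw [← hsum]
      refine Finset.sum_congr rfl fun s _ => ?_
      rw [← hu _ (hqX s) (q s).2]
      congr 1
      simp [hq]
    have key : ∀ i : Fin (d + 1), ∑ s, c s * (if (0 : Fin (r + 1)) = part π (q s).2 then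
        (Fin.cons 1 (g (q s).1) : Fin (d + 1) → ℝ) i else 0) = if i = 0 then 1 else 0 := by
      intro i
      have := congrFun hsum' (finProdFinEquiv (i, (0 : Fin (r + 1))))
      rw [Finset.sum_apply] at this
      simpa [enc, bvec] using this
    set w : Fin ((d + 1) * (r + 1)) → ℝ := fun s =>
      if (0 : Fin (r + 1)) = part π (q s).2 then c s else 0 with hw
    have hw0 : ∀ s, 0 ≤ w s := by
      intro s
      simp only [hw]
      split_ifs
      · exact hc s
      · exact le_rfl
    have hw1 : ∑ s, w s = 1 := by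
      have := key 0
      rw [if_pos rfl] at this
      rw [← this]
      refine Finset.sum_congr rfl fun s _ => ?_
      simp only [hw, Fin.cons_zero]
      split_ifs <;> simp
    have hw2 : ∑ s, w s • g (q s).1 = 0 := by
      ext k
      rw [Finset.sum_apply]
      have := key k.succ
      rw [if_neg (Fin.succ_ne_zero k)] at this
      rw [Pi.zero_apply, ← this]
      refine Finset.sum_congr rfl fun s _ => ?_
      simp only [hw, Fin.cons_succ, Pi.smul_apply, smul_eq_mul]
      split_ifs <;> simp
    rw [← hw2]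
    refine (convex_convexHull ℝ _).sum_mem (fun s _ => hw0 s) hw1 fun s _ => ?_
    exact subset_convexHull ℝ _ ⟨(q s).1, hqX s, rfl⟩
  · rfl

theorem eval0 : PATHS → EVAL0 := by
  intro hP d r α u g X hu h0
  unfold cc
  refine Finset.sum_eq_zero fun π _ => ?_
  have := hP α (El d r) 0 (elList d r) X (fpi u π) (fun l hl _ _ => by
    rw [fpi_eq_zero u g X hu h0 π l fun q hq => (hl q hq).1])
  rw [zero_dvd_iff.1 this, mul_zero]

end Pool.Agent.Helper86.Ct
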